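import Pool.Agent.Helper74.NH.Main

set_option autoImplicit false

/-!
# Uniform non-helping oracles

For every relative Blum measure there is a total recursive `g` such that for every recursive set `A`
and every total recursive `s` there is one recursive set `B`, whose complexity is above `s` almost
everywhere, such that for all bounds `t` simultaneously: if the complexity of `A` is above
`g(x, t(x))` for almost all `x`, then the complexity of `A` relative to `B` is above `t(x)` for
almost all `x`.

The definitions are in `Pool.Agent.Helper74.NH.Defs`: `PartrecFunctional` (partial recursive
functionals with a set oracle), `Acceptable`, `RelBlum` (relative Blum measures), `CompGt`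
(`Φ^B-Comp(A) >_ae t`).

Proof idea. `B` is built by a priority construction of finite injury type, driven by the running time
of a program for `A` and for the functions that are fast on the empty oracle. There are worlds
(strings) `W_0 ⊆ W_1 ⊆ …`; in a step without action `W_l` takes the value of `W_{l+1}`, so that the
level `l` is one step behind the level `l + 1`, and `B` is the limit of `W_0`. The requirement `i`
acts at the level `i + 1`: it replaces the worlds above the level `i` by a string extending the
preceding value of `W_{i+1}` on which program `i` is verified to be wrong about `A`, or
diagonalizes against program `i` on the empty oracle, or makes the world longer. If `i` computes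
`A` from `B`, then from some time on no candidate extending `W_{i+1}` makes `i` wrong on the
arguments and budgets below the time of the next step; therefore a search over these candidates,
with oracle `∅`, computes `A`, and its cost is bounded by a function of `x` and the budget only.
-/

namespace Pool.Agent.Results.MP_0db899_lc.UniformNonHelping

open Pool.Agent.Helper74.NH

/-- Positive answer to Q1, for every relative Blum measure. -/
theorem result {φ Φ : ℕ → Set ℕ → ℕ →. ℕ} (h : RelBlum φ Φ) :
    ∃ g : ℕ → ℕ → ℕ, Computable₂ g ∧
      ∀ A : Set ℕ, ComputablePred (fun n => n ∈ A) → ∀ s : ℕ → ℕ, Computable s →
        ∃ B : Set ℕ, ComputablePred (fun n => n ∈ B) ∧ CompGt φ Φ ∅ B s ∧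
          ∀ t : ℕ → ℕ, CompGt φ Φ ∅ A (fun x => g x (t x)) → CompGt φ Φ B A t :=
  main h

end Pool.Agent.Results.MP_0db899_lc.UniformNonHelping
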